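import Pool.Agent.W901.FH.Defs

/-!
# Predictions with finitely many possible help values: definitions

Polynomial time is Mathlib's `Turing.TM2ComputableInPolyTime` (through `Pool.Agent.NPC.PolyTime`).
-/

set_option autoImplicit false

namespace Pool.Agent.TH684.HB

open Pool.Agent.NPC Pool.Agent.H251R5.PQ Pool.Agent.W901.AT Pool.Agent.W901.FH

/-- There is a matrix with `K` rows and entries `0, 1, -1` such that for every choice of signs for
the columns some row sum of the signed matrix has absolute value at least `t`. -/
def Unbalanced (K t : ℕ) : Prop :=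
  ∃ (M : ℕ) (a : Fin K → Fin M → ℤ), (∀ j i, a j i = 0 ∨ a j i = 1 ∨ a j i = -1) ∧
    ∀ e : Fin M → ℤ, (∀ i, e i = 1 ∨ e i = -1) → ∃ j, (t : ℤ) ≤ |∑ i, a j i * e i|

/-- `A` is predictable with `K` help values and advantage `t` for some numbers of questions: there
are a polynomial-time algorithm `g` and a number `b` such that for every `n` there are a number `m`
and a number `a` (advice), both at most `n ^ b + b`, such that for every list of `m` strings of
length at most `n` there is a help value `u < K`, depending on the list in any way, for which `g`
computes from the list, `a` and `u` predictions with advantage `t`. -/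
def Predictable (K t : ℕ) (A : Set (List Bool)) : Prop :=
  ∃ (g : List Bool → List (Option Bool)) (b : ℕ), PolyTime (fun z => bits (g z)) ∧
    ∀ n : ℕ, ∃ m a : ℕ, m ≤ n ^ b + b ∧ a ≤ n ^ b + b ∧ ∀ qs : List (List Bool), qs.length = m →
      (∀ y ∈ qs, y.length ≤ n) → ∃ u < K, Adv t A qs (g (bits (qs, (a, u))))

/-- `A` is predictable with `K` help values and advantage `t` for all lists of at least `m₀`
strings, for some `m₀`. -/
def PredictableAll (K t : ℕ) (A : Set (List Bool)) : Prop :=
  ∃ (g : List Bool → List (Option Bool)) (m₀ : ℕ), PolyTime (fun z => bits (g z)) ∧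
    ∀ qs : List (List Bool), m₀ ≤ qs.length → ∃ u < K, Adv t A qs (g (bits (qs, u)))

end Pool.Agent.TH684.HB
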