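import Pool.Agent.W377.FH.HR
import Pool.Agent.TH684.HB.Defs

/-!
# Labels with the best possible discrepancy for `K` given vectors
-/

set_option autoImplicit false

namespace Pool.Agent.TH684.HB

open Finset Pool.Agent.H579R2.Spt Pool.Agent.W901.AT Pool.Agent.W901.FH Pool.Agent.W377.FH

/-- Rounding in one class. -/
theorem round_class (I : Finset ℕ) (w : ℕ → ℝ) (hw : ∀ i ∈ I, |w i| ≤ 1) (hs : ∑ i ∈ I, w i = 0)
    (g : ℤ) (hg : |g| ≤ 1) (hpar : (2 : ℤ) ∣ g - I.card) :
    ∃ χ : ℕ → Bool, (∀ i ∈ I, |w i| = 1 → ((sgn (χ i) : ℤ) : ℝ) = w i) ∧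
      ∑ i ∈ I, sgn (χ i) = g := by
  classical
  set D := I.filter (fun i => |w i| = 1) with hD
  set E := I.filter (fun i => ¬ |w i| = 1) with hE
  have hsplit : ∀ f : ℕ → ℤ, ∑ i ∈ I, f i = ∑ i ∈ D, f i + ∑ i ∈ E, f i := fun f =>
    (Finset.sum_filter_add_sum_filter_not I (fun i => |w i| = 1) f).symm
  have hsplitR : ∀ f : ℕ → ℝ, ∑ i ∈ I, f i = ∑ i ∈ D, f i + ∑ i ∈ E, f i := fun f =>
    (Finset.sum_filter_add_sum_filter_not I (fun i => |w i| = 1) f).symm
  have hcard : I.card = D.card + E.card :=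
    (Finset.card_filter_add_card_filter_not (s := I) (fun i => |w i| = 1)).symm
  have hsg : ∀ i ∈ D, ((sgn (decide (w i = 1)) : ℤ) : ℝ) = w i := by
    intro i hi
    have h1 := (mem_filter.1 hi).2
    rcases (abs_eq (by norm_num : (0 : ℝ) ≤ 1)).1 h1 with h3 | h3
    · rw [h3]; simp [sgn]
    · rw [h3]; norm_num [sgn]
  set s : ℤ := ∑ i ∈ D, sgn (decide (w i = 1)) with hsdef
  have hsR : (s : ℝ) = ∑ i ∈ D, w i := by
    rw [hsdef]
    push_cast
    exact sum_congr rfl hsg
  have hsE : (s : ℝ) = - ∑ i ∈ E, w i := by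
    have := hsplitR w
    rw [hs] at this
    linarith
  -- parity
  have hpar1 : ∀ (J : Finset ℕ) (c : ℕ → Bool), (2 : ℤ) ∣ (∑ i ∈ J, sgn (c i)) - J.card := by
    intro J c
    induction J using Finset.induction_on with
    | empty => simp
    | insert a J ha ih =>
      rw [sum_insert ha, card_insert_of_notMem ha]
      push_cast
      have h2 : (2 : ℤ) ∣ sgn (c a) - 1 := by cases c a <;> simp [sgn]
      have := dvd_add ih h2
      have e : ∑ x ∈ J, sgn (c x) - (J.card : ℤ) + (sgn (c a) - 1) =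
          sgn (c a) + ∑ x ∈ J, sgn (c x) - ((J.card : ℤ) + 1) := by ring
      rwa [e] at this
  have hsD := hpar1 D (fun i => decide (w i = 1))
  have hbound : |(s : ℝ)| ≤ E.card ∧ (0 < E.card → |(s : ℝ)| < E.card) := by
    have h1 : |(s : ℝ)| ≤ ∑ i ∈ E, |w i| := by
      rw [hsE, abs_neg]
      exact abs_sum_le_sum_abs _ _
    have h2 : ∑ i ∈ E, |w i| ≤ E.card := by
      have := Finset.sum_le_sum (f := fun i => |w i|) (g := fun _ => (1 : ℝ)) (s := E)
        (fun i hi => hw i (mem_filter.1 hi).1)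
      simpa using this
    refine ⟨h1.trans h2, fun hpos => lt_of_le_of_lt h1 ?_⟩
    obtain ⟨i, hi⟩ := Finset.card_pos.1 hpos
    have := Finset.sum_lt_sum (f := fun i => |w i|) (g := fun _ => (1 : ℝ)) (s := E)
      (fun i hi => hw i (mem_filter.1 hi).1)
      ⟨i, hi, lt_of_le_of_ne (hw i (mem_filter.1 hi).1) (mem_filter.1 hi).2⟩
    simpa using this
  set r : ℤ := g - s with hr
  have hr2 : (2 : ℤ) ∣ r + E.card := by
    obtain ⟨c1, hc1⟩ := hpar
    obtain ⟨c2, hc2⟩ := hsD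
    refine ⟨c1 - c2 + E.card, ?_⟩
    rw [hcard] at hc1
    push_cast at hc1
    rw [← hsdef] at hc2
    rw [hr]
    linarith
  have hrle : |r| ≤ E.card := by
    rcases Nat.eq_zero_or_pos E.card with h0 | hpos
    · have h1 := hbound.1
      rw [h0] at h1
      have h2 : (s : ℝ) = 0 := by
        have := abs_nonneg (s : ℝ)
        have h3 : |(s : ℝ)| = 0 := le_antisymm (by simpa using h1) this
        exact abs_eq_zero.1 h3
      have h3 : s = 0 := by exact_mod_cast h2
      rw [h0] at hr2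
      simp only [hr, h3, sub_zero, Nat.cast_zero, add_zero] at hr2
      have h4 := abs_le.1 hg
      have h5 : g = 0 := by omega
      rw [hr, h3, h5, h0]
      simp
    · have h1 := hbound.2 hpos
      have h2 : |s| < (E.card : ℤ) := by exact_mod_cast h1
      have h3 : |r| ≤ |g| + |s| := by rw [hr]; exact abs_sub _ _
      omega
  obtain ⟨p, hp⟩ := hr2
  have hr3 := abs_le.1 hrle
  have hp0 : 0 ≤ p := by omega
  have hpE : p ≤ E.card := by omega
  obtain ⟨S, hSE, hSc⟩ := Finset.exists_subset_card_eq (s := E) (n := p.toNat) (by omega)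
  have hE2 : ∑ i ∈ E, sgn (decide (i ∈ S)) = r := by
    have h1 : ∑ i ∈ E, sgn (decide (i ∈ S)) = ∑ i ∈ E, ((if i ∈ S then 2 else 0) - 1 : ℤ) := by
      refine sum_congr rfl fun i _ => ?_
      by_cases h : i ∈ S <;> simp [h, sgn]
    rw [h1, sum_sub_distrib, ← Finset.sum_filter, sum_const, sum_const]
    have h2 : E.filter (fun i => i ∈ S) = S := by
      ext i
      rw [mem_filter]
      exact ⟨fun h => h.2, fun h => ⟨hSE h, h⟩⟩
    rw [h2, hSc]
    simp only [nsmul_eq_mul, mul_one]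
    have h3 : ((p.toNat : ℕ) : ℤ) = p := Int.toNat_of_nonneg hp0
    rw [h3]
    linarith
  refine ⟨fun i => if i ∈ E then decide (i ∈ S) else decide (w i = 1), fun i hi h1 => ?_, ?_⟩
  · have h2 : i ∉ E := fun h => (mem_filter.1 h).2 h1
    simp only [if_neg h2]
    exact hsg i (mem_filter.2 ⟨hi, h1⟩)
  · rw [hsplit]
    have e1 : ∑ i ∈ D, sgn (if i ∈ E then decide (i ∈ S) else decide (w i = 1)) = s := by
      rw [hsdef]
      refine sum_congr rfl fun i hi => ?_
      have h2 : i ∉ E := fun h => (mem_filter.1 h).2 (mem_filter.1 hi).2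
      rw [if_neg h2]
    have e2 : ∑ i ∈ E, sgn (if i ∈ E then decide (i ∈ S) else decide (w i = 1)) = r := by
      rw [← hE2]
      exact sum_congr rfl fun i hi => by rw [if_pos hi]
    rw [e1, e2, hr]
    ring

/-- The value of a prediction. -/
def vl (a : Option Bool) : ℤ := pt a true

/-- **Labels with the best possible discrepancy.** -/
theorem exact_hr (hBU : P_BU) (hWT : P_WT) (K t : ℕ) (hu : ¬ Unbalanced K t) (m : ℕ) (hm : 1 ≤ m)
    (H : List (List (Option Bool))) (hH : H.length ≤ K) :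
    ∃ v < (4 * m) ^ (3 ^ K + 1), ∀ h ∈ H, h.length = m → |cor h (wd m (3 ^ K + 1) v)| < t := by
  classical
  -- the types of the columns
  set ty : ℕ → (Fin K → Option Bool) := fun i j => (H.getD (j : ℕ) []).getD i none with hty
  have hcT : Fintype.card (Fin K → Option Bool) = 3 ^ K := by simp
  let eq : Fin (3 ^ K) ≃ (Fin K → Option Bool) := (Fintype.equivFinOfCardEq hcT).symm
  obtain ⟨x, hx1, hx2⟩ := hBU (3 ^ K) m (fun l i => if ty i = eq l then 1 else 0)
  obtain ⟨hw1, -, hw3⟩ := hWT (3 ^ K) m x hm hx1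
  set I : (Fin K → Option Bool) → Finset ℕ := fun τ => (range m).filter (fun i => ty i = τ) with hI
  have hcls : ∀ τ, ∑ i ∈ I τ, wt m x i = 0 := by
    intro τ
    have h1 := hx2 (eq.symm τ)
    rw [Equiv.apply_symm_apply] at h1
    rw [hI]
    simp only
    rw [sum_filter]
    refine Eq.trans (sum_congr rfl fun i _ => ?_) h1
    by_cases h : ty i = τ
    · rw [if_pos h, if_pos h, one_mul]
    · rw [if_neg h, if_neg h, zero_mul]
  -- the odd classes
  set Od : Finset (Fin K → Option Bool) := univ.filter (fun τ => Odd (I τ).card) with hOd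
  have hbal : ∃ e : (Fin K → Option Bool) → ℤ, (∀ τ ∈ Od, e τ = 1 ∨ e τ = -1) ∧
      ∀ j, |∑ τ ∈ Od, vl (τ j) * e τ| < t := by
    have hu' : ∀ (M : ℕ) (a : Fin K → Fin M → ℤ), (∀ j i, a j i = 0 ∨ a j i = 1 ∨ a j i = -1) →
        ∃ e : Fin M → ℤ, (∀ i, e i = 1 ∨ e i = -1) ∧ ∀ j, |∑ i, a j i * e i| < t := by
      intro M a ha
      by_contra hcon
      push Not at hcon
      exact hu ⟨M, a, ha, hcon⟩
    let f : Fin Od.card ≃ Od := Od.equivFin.symm
    obtain ⟨e, he1, he2⟩ := hu' Od.card (fun j i => vl ((f i).1 j)) (fun j i => by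
      unfold vl pt
      rcases (f i).1 j with _ | c
      · simp
      · cases c <;> simp [sgn])
    refine ⟨fun τ => if h : τ ∈ Od then e (f.symm ⟨τ, h⟩) else 0, fun τ hτ => ?_, fun j => ?_⟩
    · simp only [dif_pos hτ]
      exact he1 _
    · have h1 := he2 j
      have h2 : ∑ i, vl ((f i).1 j) * e i = ∑ τ ∈ Od, vl (τ j) *
          (if h : τ ∈ Od then e (f.symm ⟨τ, h⟩) else 0) := by
        rw [← Finset.sum_coe_sort Od (fun τ => vl (τ j) *
          (if h : τ ∈ Od then e (f.symm ⟨τ, h⟩) else 0))]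
        refine Fintype.sum_equiv f _ _ fun i => ?_
        rw [dif_pos (f i).2]
        have h3 : f.symm ⟨(f i).1, (f i).2⟩ = i := by simp
        rw [h3]
      rwa [h2] at h1
  obtain ⟨e, he1, he2⟩ := hbal
  set g : (Fin K → Option Bool) → ℤ := fun τ => if τ ∈ Od then e τ else 0 with hg
  have hrd : ∀ τ, ∃ χ : ℕ → Bool, (∀ i ∈ I τ, |wt m x i| = 1 → ((sgn (χ i) : ℤ) : ℝ) = wt m x i) ∧
      ∑ i ∈ I τ, sgn (χ i) = g τ := by
    intro τ
    refine round_class (I τ) (wt m x) (fun i hi => hw1 i (mem_range.1 (mem_filter.1 hi).1))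
      (hcls τ) (g τ) ?_ ?_
    · simp only [hg]
      split_ifs with h
      · rcases he1 τ h with h1 | h1 <;> rw [h1] <;> norm_num
      · norm_num
    · simp only [hg]
      split_ifs with h
      · have h1 : Odd (I τ).card := (mem_filter.1 h).2
        obtain ⟨c, hc⟩ := h1
        rw [hc]
        rcases he1 τ h with h1 | h1 <;> rw [h1]
        · exact ⟨-c, by push_cast; ring⟩
        · exact ⟨-c - 1, by push_cast; ring⟩
      · have h1 : ¬ Odd (I τ).card := fun h2 => h (mem_filter.2 ⟨mem_univ _, h2⟩)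
        rw [Nat.not_odd_iff_even] at h1
        obtain ⟨c, hc⟩ := h1
        rw [hc]
        exact ⟨-c, by push_cast; ring⟩
  choose χt hχ1 hχ2 using hrd
  set χ : ℕ → Bool := fun i => χt (ty i) i with hχ
  obtain ⟨v, hv, hlb⟩ := hw3 χ (fun i hi h1 =>
    hχ1 (ty i) i (mem_filter.2 ⟨mem_range.2 hi, rfl⟩) h1)
  refine ⟨v, hv, fun h hh' hlen => ?_⟩
  obtain ⟨j, hj, hjh⟩ := List.getElem_of_mem hh'
  have hjK : j < K := lt_of_lt_of_le hj hH
  have hrow : ∀ i, ty i ⟨j, hjK⟩ = h.getD i none := by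
    intro i
    rw [hty]
    simp only
    rw [List.getD_eq_getElem _ _ hj, hjh]
  have hcor : cor h (wd m (3 ^ K + 1) v) =
      ∑ i ∈ range m, vl (ty i ⟨j, hjK⟩) * sgn (χ i) := by
    unfold wd
    have h1 := cor_eq h (lb (4 * m) (3 ^ K + 1) v)
    rw [hlen] at h1
    rw [h1]
    refine sum_congr rfl fun i hi => ?_
    rw [hlb i (mem_range.1 hi), pt_sgn, hrow]
    rfl
  have hsum : ∑ i ∈ range m, vl (ty i ⟨j, hjK⟩) * sgn (χ i) =
      ∑ τ, vl (τ ⟨j, hjK⟩) * g τ := by
    rw [← Finset.sum_fiberwise_of_maps_to (s := range m) (t := univ) (g := ty)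
      (fun i _ => mem_univ _)]
    refine sum_congr rfl fun τ _ => ?_
    rw [← hχ2 τ, mul_sum]
    refine sum_congr rfl fun i hi => ?_
    have h2 := (mem_filter.1 hi).2
    rw [hχ]
    simp only
    rw [h2]
  have hsum2 : ∑ τ, vl (τ ⟨j, hjK⟩) * g τ = ∑ τ ∈ Od, vl (τ ⟨j, hjK⟩) * e τ := by
    rw [← Finset.sum_subset (Finset.subset_univ Od)]
    · refine sum_congr rfl fun τ hτ => ?_
      simp only [hg]
      rw [if_pos hτ]
    · intro τ _ hτ
      simp only [hg]
      rw [if_neg hτ, mul_zero]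
  rw [hcor, hsum, hsum2]
  exact he2 ⟨j, hjK⟩

end Pool.Agent.TH684.HB
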