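import Pool.Agent.TH684.HB.Thm

/-!
# The exact thresholds for up to four help values
-/

set_option autoImplicit false

namespace Pool.Agent.TH684.HB

open Finset Pool.Agent.H579R2.Spt Pool.Agent.W901.AT
open Pool.Agent.W901.FH (lb wd LinDisc P_HR)

/-- Nearest rounding. -/
noncomputable def nr (x : ℝ) : ℝ := if 0 ≤ x then 1 else -1

theorem nr_pm (x : ℝ) : nr x = 1 ∨ nr x = -1 := by
  unfold nr
  split_ifs
  · exact Or.inl rfl
  · exact Or.inr rfl

theorem nr_le {x : ℝ} (h : |x| ≤ 1) : |nr x - x| ≤ 1 := by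
  have := abs_le.1 h
  unfold nr
  split_ifs with h0
  · rw [abs_le]; constructor <;> linarith
  · rw [abs_le]; constructor <;> linarith

theorem nr_lt {x : ℝ} (h : |x| ≤ 1) (h0 : x ≠ 0) : |nr x - x| < 1 := by
  have := abs_le.1 h
  unfold nr
  split_ifs with h1
  · have : 0 < x := lt_of_le_of_ne h1 (Ne.symm h0)
    rw [abs_lt]; constructor <;> linarith
  · rw [abs_lt]; constructor <;> linarith

theorem sum_le_card {J : Type} [Fintype J] {d f : J → ℝ} (hd : ∀ g, |d g| ≤ 1) (hf : ∀ g, |f g| ≤ 1) :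
    |∑ g, d g * f g| ≤ Fintype.card J := by
  refine (abs_sum_le_sum_abs _ _).trans ?_
  have : ∑ g, |d g * f g| ≤ ∑ _g : J, (1 : ℝ) := sum_le_sum fun g _ => by
    rw [abs_mul]
    exact mul_le_one₀ (hd g) (abs_nonneg _) (hf g)
  simpa using this

theorem sum_lt_card {J : Type} [Fintype J] {d f : J → ℝ} (hd : ∀ g, |d g| ≤ 1) (hf : ∀ g, |f g| ≤ 1)
    (h : ∃ g, |d g| < 1) : |∑ g, d g * f g| < Fintype.card J := by
  refine lt_of_le_of_lt (abs_sum_le_sum_abs _ _) ?_
  have : ∑ g, |d g * f g| < ∑ _g : J, (1 : ℝ) := by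
    obtain ⟨g0, h0⟩ := h
    refine sum_lt_sum (fun g _ => ?_) ⟨g0, mem_univ _, ?_⟩
    · rw [abs_mul]
      exact mul_le_one₀ (hd g) (abs_nonneg _) (hf g)
    · rw [abs_mul]
      refine lt_of_le_of_lt (mul_le_of_le_one_right (abs_nonneg _) (hf g0)) h0
  simpa using this

theorem linDisc_of_lt {K : ℕ} {T : ℝ} (h : (K : ℝ) < T) : LinDisc K T := by
  intro J _ _ f x hJ hf hx
  refine ⟨fun g => nr (x g), fun g => nr_pm _, fun i => ?_⟩
  refine lt_of_le_of_lt (sum_le_card (fun g => nr_le (hx g)) (fun g => hf g i)) ?_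
  refine lt_of_le_of_lt ?_ h
  exact_mod_cast hJ

theorem linDisc_self {K : ℕ} (h : 2 * K < 2 ^ K) : LinDisc K K := by
  classical
  intro J _ _ f x hJ hf hx
  rcases Nat.lt_or_ge (Fintype.card J) K with hc | hc
  · refine ⟨fun g => nr (x g), fun g => nr_pm _, fun i => ?_⟩
    refine lt_of_le_of_lt (sum_le_card (fun g => nr_le (hx g)) (fun g => hf g i)) ?_
    exact_mod_cast hc
  have hcard : Fintype.card J = K := le_antisymm hJ hc
  by_cases hx0 : ∃ g, x g ≠ 0
  · refine ⟨fun g => nr (x g), fun g => nr_pm _, fun i => ?_⟩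
    obtain ⟨g, hg⟩ := hx0
    refine lt_of_lt_of_le (sum_lt_card (fun g => nr_le (hx g)) (fun g => hf g i)
      ⟨g, nr_lt (hx g) hg⟩) ?_
    rw [hcard]
  · push Not at hx0
    -- choose a sign pattern which is not forbidden
    set F : Fin K × Bool → (J → Bool) := fun p g => decide (f g p.1 = if p.2 then 1 else -1) with hF
    obtain ⟨c, hc⟩ : ∃ c : J → Bool, c ∉ univ.image F := by
      by_contra hcon
      push Not at hcon
      have h1 : (univ : Finset (J → Bool)) ⊆ univ.image F := fun c _ => hcon c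
      have h2 := (card_le_card h1).trans card_image_le
      rw [card_univ, card_univ, Fintype.card_fun, Fintype.card_prod, Fintype.card_bool,
        Fintype.card_fin, hcard] at h2
      omega
    refine ⟨fun g => if c g then 1 else -1, fun g => by
      by_cases h : c g = true
      · simp [h]
      · simp [h], fun i => ?_⟩
    set e : J → ℝ := fun g => if c g then 1 else -1 with he
    have he1 : ∀ g, |e g| ≤ 1 := fun g => by
      rw [he]
      by_cases h : c g = true <;> simp [h]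
    have hsum : ∑ g, (e g - x g) * f g i = ∑ g, e g * f g i :=
      sum_congr rfl fun g _ => by rw [hx0 g, sub_zero]
    change |∑ g, (e g - x g) * f g i| < K
    rw [hsum]
    by_contra hcon
    push Not at hcon
    have hle : ∀ g, |e g * f g i| ≤ 1 := fun g => by
      rw [abs_mul]
      exact mul_le_one₀ (he1 g) (abs_nonneg _) (hf g i)
    have key : ∀ s : ℝ, (s = 1 ∨ s = -1) → (K : ℝ) ≤ ∑ g, s * (e g * f g i) →
        ∀ g, s * (e g * f g i) = 1 := by
      intro s hs h1
      have h2 : ∀ g ∈ (univ : Finset J), s * (e g * f g i) ≤ 1 := fun g _ => by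
        have := abs_le.1 (hle g)
        rcases hs with rfl | rfl <;> linarith
      have h3 : ∑ g : J, s * (e g * f g i) = ∑ _g : J, (1 : ℝ) := by
        refine le_antisymm (sum_le_sum h2) ?_
        rw [sum_const, card_univ, hcard]
        simpa using h1
      exact fun g => (Finset.sum_eq_sum_iff_of_le h2).1 h3 g (mem_univ g)
    have hfin : ∀ s : ℝ, ∀ b : Bool, (s = if b then 1 else -1) →
        (∀ g, s * (e g * f g i) = 1) → False := by
      intro s b hs h1
      refine hc (mem_image.2 ⟨(i, b), mem_univ _, ?_⟩)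
      funext g
      have h2 := h1 g
      rw [hF]
      simp only
      rw [hs, he] at h2
      simp only at h2
      cases hb : b <;> cases hcg : c g <;> simp [hb, hcg] at h2 ⊢ <;> linarith
    rcases le_abs.1 hcon with h1 | h1
    · exact hfin 1 true (by simp) (key 1 (Or.inl rfl) (by simpa using h1))
    · exact hfin (-1) false (by simp) (key (-1) (Or.inr rfl) (by
        rw [← Finset.mul_sum]; linarith))

/-- Linear discrepancy bounds exclude unbalanced matrices. -/
theorem not_unbalanced {K t : ℕ} (ht : 1 ≤ t) (h : LinDisc K t) : ¬ Unbalanced K t := by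
  rintro ⟨M, a, ha, hu⟩
  rcases Nat.eq_zero_or_pos M with rfl | hM
  · obtain ⟨j, hj⟩ := hu (fun _ => 1) (fun _ => Or.inl rfl)
    simp at hj
    omega
  have hHR : P_HR := Pool.Agent.W377.FH.hr hBU hWT
  set row : Fin K → List (Option Bool) := fun j => (List.finRange M).map (fun i => ofZ (a j i))
    with hrow
  obtain ⟨v, -, hv⟩ := hHR K M t h hM ((List.finRange K).map row) (by simp)
  obtain ⟨j, hj⟩ := hu (fun i => sgn (lb (4 * M) (K + 1) v i)) (fun i => sgn_abs _)
  have hl : (row j).length = M := by rw [hrow]; simp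
  have h1 := hv (row j) (List.mem_map.2 ⟨j, List.mem_finRange j, rfl⟩) hl
  have h2 : cor (row j) (wd M (K + 1) v) = ∑ i : Fin M, a j i * sgn (lb (4 * M) (K + 1) v i) := by
    unfold wd
    have h3 := cor_eq (row j) (lb (4 * M) (K + 1) v)
    rw [hl] at h3
    rw [h3, Finset.sum_range]
    refine sum_congr rfl fun i _ => ?_
    have h5 : (row j).getD (i : ℕ) none = ofZ (a j i) := by
      rw [hrow, List.getD_eq_getElem _ _ (by simp)]
      simp
    rw [h5, pt_ofZ (ha j i)]
  rw [h2] at h1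
  have h6 : ((t : ℤ) : ℝ) ≤ ((|∑ i : Fin M, a j i * sgn (lb (4 * M) (K + 1) v i)| : ℤ) : ℝ) := by
    exact_mod_cast hj
  rw [Int.cast_abs] at h6
  push_cast at h6 h1
  linarith

theorem Unbalanced.mono {K t t' : ℕ} (h : Unbalanced K t) (ht : t' ≤ t) : Unbalanced K t' := by
  obtain ⟨M, a, ha, hu⟩ := h
  refine ⟨M, a, ha, fun e he => ?_⟩
  obtain ⟨j, hj⟩ := hu e he
  exact ⟨j, (by exact_mod_cast ht : (t' : ℤ) ≤ t).trans hj⟩

theorem unb1 : Unbalanced 1 1 := by
  refine ⟨1, ![![1]], by decide, fun e he => ⟨0, ?_⟩⟩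
  rcases he 0 with h | h <;> simp [h]

theorem unb2 : Unbalanced 2 2 := by
  refine ⟨2, ![![1, 1], ![1, -1]], by decide, fun e he => ?_⟩
  rcases he 0 with h | h <;> rcases he 1 with h' | h'
  · exact ⟨0, by simp [Fin.sum_univ_two, h, h']⟩
  · exact ⟨1, by simp [Fin.sum_univ_two, h, h']⟩
  · exact ⟨1, by simp [Fin.sum_univ_two, h, h']⟩
  · exact ⟨0, by simp [Fin.sum_univ_two, h, h']⟩

theorem unb3 : Unbalanced 3 2 := by
  refine ⟨2, ![![1, 1], ![1, -1], ![0, 0]], by decide, fun e he => ?_⟩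
  rcases he 0 with h | h <;> rcases he 1 with h' | h'
  · exact ⟨0, by simp [Fin.sum_univ_two, h, h']⟩
  · exact ⟨1, by simp [Fin.sum_univ_two, h, h']⟩
  · exact ⟨1, by simp [Fin.sum_univ_two, h, h']⟩
  · exact ⟨0, by simp [Fin.sum_univ_two, h, h']⟩

theorem unb4 : Unbalanced 4 3 := by
  refine ⟨3, ![![1, 1, 1], ![1, 1, -1], ![1, -1, 1], ![1, -1, -1]], by decide, fun e he => ?_⟩
  rcases he 0 with h | h <;> rcases he 1 with h' | h' <;> rcases he 2 with h'' | h''
  · exact ⟨0, by simp [Fin.sum_univ_three, h, h', h'']⟩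
  · exact ⟨1, by simp [Fin.sum_univ_three, h, h', h'']⟩
  · exact ⟨2, by simp [Fin.sum_univ_three, h, h', h'']⟩
  · exact ⟨3, by simp [Fin.sum_univ_three, h, h', h'']⟩
  · exact ⟨3, by simp [Fin.sum_univ_three, h, h', h'']⟩
  · exact ⟨2, by simp [Fin.sum_univ_three, h, h', h'']⟩
  · exact ⟨1, by simp [Fin.sum_univ_three, h, h', h'']⟩
  · exact ⟨0, by simp [Fin.sum_univ_three, h, h', h'']⟩

/-- The exact thresholds for up to four help values. -/
theorem small_values (t : ℕ) : (Unbalanced 1 t ↔ t ≤ 1) ∧ (Unbalanced 2 t ↔ t ≤ 2) ∧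
    (Unbalanced 3 t ↔ t ≤ 2) ∧ (Unbalanced 4 t ↔ t ≤ 3) := by
  have n1 : ¬ Unbalanced 1 2 := not_unbalanced (by norm_num) (linDisc_of_lt (by norm_num))
  have n2 : ¬ Unbalanced 2 3 := not_unbalanced (by norm_num) (linDisc_of_lt (by norm_num))
  have n3 : ¬ Unbalanced 3 3 := not_unbalanced (by norm_num) (linDisc_self (by norm_num))
  have n4 : ¬ Unbalanced 4 4 := not_unbalanced (by norm_num) (linDisc_self (by norm_num))
  refine ⟨⟨fun h => ?_, fun h => unb1.mono h⟩, ⟨fun h => ?_, fun h => unb2.mono h⟩,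
    ⟨fun h => ?_, fun h => unb3.mono h⟩, ⟨fun h => ?_, fun h => unb4.mono h⟩⟩
  · by_contra hcon
    exact n1 (h.mono (by omega))
  · by_contra hcon
    exact n2 (h.mono (by omega))
  · by_contra hcon
    exact n3 (h.mono (by omega))
  · by_contra hcon
    exact n4 (h.mono (by omega))

end Pool.Agent.TH684.HB
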