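import Pool.Agent.TH684.HB.Round
import Pool.Agent.TH684.EX.Thm
import Pool.Agent.W12.FH.WT
import Pool.Agent.W320.FH.BU
import Pool.Agent.W21.FH.ET

/-!
# The exact law of finite help for `NP`
-/

set_option autoImplicit false

namespace Pool.Agent.TH684.HB

open Finset Pool.Agent.NPC Pool.Agent.H579R2.Spt Pool.Agent.H251R5.PQ Pool.Agent.W901.AT
open Pool.Agent.W901.FH (lb wd Adv HelpAll HelpOn pow_polyc pow_upolyc iabs_poly lb_polyf wd_poly)
open Pool.Agent.TH684.EX

/-- The family of the step vectors with exceptional entries. -/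
def Lstep (R : ℕ) : Set (List Bool) :=
  lang (fun q : ℕ × (ℕ × ℕ) => lb (4 * q.1) (R + 1) q.2.1 q.2.2 = true)

theorem lstep_inP (R : ℕ) : InP (Lstep R) :=
  inPP_of (d := fun q : ℕ × (ℕ × ℕ) => lb (4 * q.1) (R + 1) q.2.1 q.2.2)
    (lb_polyf (R + 1) (NPC.Poly.mul (NPC.Poly.const 4) (NPC.Poly.fst NPC.Poly.id))
      (NPC.Poly.fst (NPC.Poly.snd NPC.Poly.id)) (NPC.Poly.snd (NPC.Poly.snd NPC.Poly.id)))
    (fun _ => Iff.rfl)

theorem vec_lstep (R m l : ℕ) : vec (Lstep R) m l = wd m (R + 1) l := by
  classical
  unfold vec wd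
  refine List.map_congr_left fun i _ => ?_
  have h1 : bits (m, (l, i)) ∈ Lstep R ↔ lb (4 * m) (R + 1) l i = true := bits_mem_lang
  by_cases h : lb (4 * m) (R + 1) l i = true
  · rw [h]; exact decide_eq_true (h1.2 h)
  · rw [Bool.not_eq_true] at h
    rw [h]
    refine decide_eq_false fun h3 => ?_
    rw [h1.1 h3] at h
    exact absurd h (by simp)

/-- The vectors of predictions for all help values. -/
def vecs (K : ℕ) (g : List Bool → List (Option Bool)) (z : List Bool) : List (List (Option Bool)) :=
  (List.range K).map (fun u => g (bits ((dp z).1, ((dp z).2, u))))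

theorem vecs_poly (K : ℕ) {g : List Bool → List (Option Bool)} (hg : Poly g) :
    Poly (vecs K g) := by
  unfold vecs
  refine NPC.Poly.map (l := fun _ => List.range K)
    (F := fun z u => g (bits ((dp z).1, ((dp z).2, u)))) (NPC.Poly.const _) ?_
  have e1 : Poly (fun t : List Bool × ℕ => t.1) := NPC.Poly.fst NPC.Poly.id
  exact hg.comp (bits_poly.comp (NPC.Poly.pair (NPC.Poly.fst (dp_poly.comp e1))
    (NPC.Poly.pair (NPC.Poly.snd (dp_poly.comp e1)) (NPC.Poly.snd NPC.Poly.id))))

/-- Is the vector number `v` incompatible with all vectors of predictions? -/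
def inc (R t m : ℕ) (H : List (List (Option Bool))) (v : ℕ) : Bool :=
  H.all (fun h => !(decide (h.length = m) && decide ((t : ℤ) ≤ |cor h (wd m (R + 1) v)|)))

/-- The number of the first incompatible vector. -/
def xx (R K t : ℕ) (g : List Bool → List (Option Bool)) (z : List Bool) : ℕ :=
  ((List.range ((4 * (dp z).1.length) ^ (R + 1))).filter
    (fun v => inc R t (dp z).1.length (vecs K g z) v)).head?.getD 0

theorem xx_poly (R K t : ℕ) {g : List Bool → List (Option Bool)} (hg : Poly g) :
    Poly (xx R K t g) := by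
  have hm : UPoly (fun z : List Bool => (dp z).1.length) := UPoly.length (NPC.Poly.fst dp_poly)
  unfold xx
  refine NPC.Poly.optGetD (NPC.Poly.head? (NPC.Poly.filter
    (l := fun z => List.range ((4 * (dp z).1.length) ^ (R + 1)))
    (p := fun z v => inc R t (dp z).1.length (vecs K g z) v)
    (pow_upolyc ((UPoly.const 4).mul hm) (R + 1)).range ?_)) (NPC.Poly.const 0)
  unfold inc
  have e1 : Poly (fun q : List Bool × ℕ => q.1) := NPC.Poly.fst NPC.Poly.id
  have e2 : Poly (fun q : List Bool × ℕ => q.2) := NPC.Poly.snd NPC.Poly.id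
  refine NPC.Poly.all (l := fun q : List Bool × ℕ => vecs K g q.1)
    (p := fun q h => !(decide (h.length = (dp q.1).1.length) &&
      decide ((t : ℤ) ≤ |cor h (wd (dp q.1).1.length (R + 1) q.2)|))) ((vecs_poly K hg).comp e1) ?_
  have f1 : Poly (fun q : (List Bool × ℕ) × List (Option Bool) => q.1) := NPC.Poly.fst NPC.Poly.id
  have f2 : Poly (fun q : (List Bool × ℕ) × List (Option Bool) => q.2) := NPC.Poly.snd NPC.Poly.id
  exact NPC.Poly.not (NPC.Poly.and (NPC.Poly.decide_eq (NPC.Poly.length f2)
    ((hm.toPoly.comp e1).comp f1))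
    (Poly.ile (NPC.Poly.const _) (iabs_poly (cor_poly f2 (wd_poly (R + 1)
      ((hm.comp e1).comp f1) (e2.comp f1))))))

theorem xx_spec {R K t : ℕ} {g : List Bool → List (Option Bool)} {z : List Bool}
    (h : ∃ v < (4 * (dp z).1.length) ^ (R + 1), ∀ h ∈ vecs K g z, h.length = (dp z).1.length →
      |cor h (wd (dp z).1.length (R + 1) v)| < t) :
    xx R K t g z < (4 * (dp z).1.length) ^ (R + 1) ∧ ∀ h ∈ vecs K g z,
      h.length = (dp z).1.length → |cor h (wd (dp z).1.length (R + 1) (xx R K t g z))| < t := by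
  obtain ⟨v, hv, hv2⟩ := h
  have hinc : ∀ v, inc R t (dp z).1.length (vecs K g z) v = true ↔ ∀ h ∈ vecs K g z,
      h.length = (dp z).1.length → |cor h (wd (dp z).1.length (R + 1) v)| < t := by
    intro v
    unfold inc
    rw [List.all_eq_true]
    refine forall_congr' fun h => forall_congr' fun _ => ?_
    by_cases h1 : h.length = (dp z).1.length
    · simp [h1]
    · simp [h1]
  have h4 : v ∈ (List.range ((4 * (dp z).1.length) ^ (R + 1))).filter
      (fun v => inc R t (dp z).1.length (vecs K g z) v) :=
    List.mem_filter.2 ⟨List.mem_range.2 hv, (hinc v).2 hv2⟩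
  rcases hh : (List.range ((4 * (dp z).1.length) ^ (R + 1))).filter
      (fun v => inc R t (dp z).1.length (vecs K g z) v) with _ | ⟨s, ts⟩
  · rw [hh] at h4
    simp at h4
  · have h5 : s ∈ (List.range ((4 * (dp z).1.length) ^ (R + 1))).filter
        (fun v => inc R t (dp z).1.length (vecs K g z) v) := by
      rw [hh]; simp
    obtain ⟨h6, h7⟩ := List.mem_filter.1 h5
    have h8 := List.mem_range.1 h6
    have h9 : xx R K t g z = s := by
      unfold xx
      rw [hh]
      rfl
    rw [h9]
    exact ⟨h8, (hinc s).1 h7⟩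

theorem hBU : Pool.Agent.W901.FH.P_BU := Pool.Agent.W320.FH.bu
theorem hWT : Pool.Agent.W901.FH.P_WT := Pool.Agent.W12.FH.wtt

/-- Prediction beyond the discrepancy gives exclusion. -/
theorem feasible_of_predictable {K t : ℕ} {A : Set (List Bool)} (hu : ¬ Unbalanced K t)
    (h : Predictable K t A) : Feasible (Exclude (Lstep (3 ^ K)) A) := by
  obtain ⟨g, b, hg, h⟩ := h
  have hgp : Poly g := poly_of_bits' hg
  -- the bound
  obtain ⟨e, he⟩ := exists_pow_bound ((Polynomial.C 4 * (Polynomial.X ^ b + Polynomial.C b)) ^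
    (3 ^ K + 1))
  set c : ℕ := b + e + (4 * (1 + b)) ^ (3 ^ K + 1) with hc
  have hbd : ∀ n : ℕ, (4 * (n ^ b + b)) ^ (3 ^ K + 1) ≤ n ^ c + c := by
    intro n
    rcases Nat.lt_or_ge n 2 with hn | hn
    · have h1 : n ^ b ≤ 1 := by
        have : n ≤ 1 := by omega
        exact (Nat.pow_le_pow_left this b).trans (by simp)
      have h2 : (4 * (n ^ b + b)) ^ (3 ^ K + 1) ≤ (4 * (1 + b)) ^ (3 ^ K + 1) :=
        Nat.pow_le_pow_left (by omega) _
      omega
    · have h1 := he n hn
      simp only [Polynomial.eval_pow, Polynomial.eval_mul, Polynomial.eval_C, Polynomial.eval_add,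
        Polynomial.eval_X] at h1
      have h2 : n ^ e ≤ n ^ c := Nat.pow_le_pow_right (by omega) (by omega)
      omega
  have hcb : b + 1 ≤ c := by
    have : 1 ≤ (4 * (1 + b)) ^ (3 ^ K + 1) := Nat.one_le_pow _ _ (by omega)
    omega
  have hbc : ∀ n : ℕ, n ^ b + b ≤ n ^ c + c := by
    intro n
    rcases Nat.eq_zero_or_pos n with rfl | hn
    · have h1 : 0 ^ b ≤ 1 := (Nat.pow_le_pow_left (Nat.zero_le 1) b).trans (by simp)
      exact (show 0 ^ b + b ≤ c by omega).trans (Nat.le_add_left _ _)
    · have : n ^ b ≤ n ^ c := Nat.pow_le_pow_right hn (by omega)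
      omega
  refine ⟨xx (3 ^ K) K t g, c, polyTime_bits (xx_poly _ _ _ hgp), fun n => ?_⟩
  obtain ⟨m, a, hm, ha, h1⟩ := h n
  refine ⟨m, a, hm.trans (hbc n), ha.trans (hbc n), fun qs hqs hlen => ?_⟩
  obtain ⟨u, hu1, hadv1, hadv2⟩ := h1 qs hqs hlen
  have hdp : dp (bits (qs, a)) = (qs, a) := dp_bits _
  have hmpos : 1 ≤ qs.length ∨ t = 0 := by
    rcases Nat.eq_zero_or_pos qs.length with h0 | h0
    · right
      have h2 : qs = [] := List.length_eq_zero_iff.1 h0
      rw [h2] at hadv2
      have h3 : excess (g (bits (qs, (a, u)))) (answers A []) = 0 := by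
        unfold excess answers
        simp
      rw [h2] at h3
      rw [h3] at hadv2
      simp only [abs_zero] at hadv2
      omega
    · exact Or.inl h0
  have ht : t ≠ 0 := by
    rintro rfl
    refine hu ⟨0, fun _ _ => 0, fun _ _ => Or.inl rfl, fun _ _ => ⟨⟨u, hu1⟩, ?_⟩⟩
    simp
  have hm1 : 1 ≤ qs.length := hmpos.resolve_right ht
  obtain ⟨hx1, hx2⟩ := xx_spec (R := 3 ^ K) (K := K) (t := t) (g := g) (z := bits (qs, a)) (by
    rw [hdp]
    refine exact_hr hBU hWT K t hu qs.length hm1 _ ?_
    unfold vecs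
    simp)
  rw [hdp] at hx1 hx2
  simp only at hx1 hx2
  refine ⟨?_, fun heq => ?_⟩
  · refine (hx1.le.trans ?_).trans (hbd n)
    exact Nat.pow_le_pow_left (by omega) _
  · rw [vec_lstep] at heq
    have h3 := hx2 (g (bits (qs, (a, u)))) (by
      unfold vecs
      rw [hdp]
      exact List.mem_map.2 ⟨u, List.mem_range.2 hu1, rfl⟩) hadv1
    rw [← heq, ← excess_eq_cor] at h3
    omega

/-- Decoding of a list with two numbers. -/
def dp3 (z : List Bool) : List (List Bool) × (ℕ × ℕ) :=
  (unbits (List (List Bool) × (ℕ × ℕ)) z).getD ([], (0, 0))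

theorem dp3_poly : Poly dp3 := NPC.Poly.optGetD poly_unbits (NPC.Poly.const _)

theorem dp3_bits (q : List (List Bool) × (ℕ × ℕ)) : dp3 (bits q) = q := by
  unfold dp3
  rw [unbits_bits, Option.getD_some]

theorem PredictableAll.predictable {K t : ℕ} {A : Set (List Bool)} (h : PredictableAll K t A) :
    Predictable K t A := by
  obtain ⟨g, m₀, hg, h⟩ := h
  refine ⟨fun z => g (bits ((dp3 z).1, (dp3 z).2.2)), m₀, polyTime_bits ((poly_of_bits' hg).comp
    (bits_poly.comp (NPC.Poly.pair (NPC.Poly.fst dp3_poly)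
      (NPC.Poly.snd (NPC.Poly.snd dp3_poly))))), fun n => ⟨m₀, 0, by omega, by omega,
    fun qs hqs _ => ?_⟩⟩
  obtain ⟨u, hu, h1⟩ := h qs (by omega)
  refine ⟨u, hu, ?_⟩
  simp only [dp3_bits]
  exact h1

/-- Sets in `P` are predictable. -/
theorem predictableAll_of_inP {K t : ℕ} (hK : 1 ≤ K) {A : Set (List Bool)} (hA : InP A) :
    PredictableAll K t A := by
  obtain ⟨g, m₀, hg, h⟩ := Pool.Agent.W21.FH.easy 0 t A hA
  have hgp : Poly g := poly_of_bits' hg
  refine ⟨fun z => g (pairBits (bits (dp z).1) []), m₀, polyTime_bits (hgp.comp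
    (Pool.Agent.H622R2.poly_pairBits (bits_poly.comp (NPC.Poly.fst dp_poly))
      (NPC.Poly.const []))), fun qs hqs => ⟨0, hK, ?_⟩⟩
  obtain ⟨u, hu, h1⟩ := h qs hqs trivial
  have hu0 : u = [] := List.length_eq_zero_iff.1 hu
  rw [hu0] at h1
  simp only [dp_bits]
  exact h1

/-- The prediction given by an entry of the matrix. -/
def ofZ (x : ℤ) : Option Bool := if x = 0 then none else some (decide (x = 1))

theorem pt_ofZ {x : ℤ} (hx : x = 0 ∨ x = 1 ∨ x = -1) (b : Bool) : pt (ofZ x) b = x * sgn b := by
  rcases hx with rfl | rfl | rfl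
  · simp [ofZ, pt]
  · simp [ofZ, pt, sgn]
  · simp [ofZ, pt, sgn]

theorem cor_append (h h' : List (Option Bool)) (w w' : List Bool) (hl : h.length = w.length) :
    cor (h ++ h') (w ++ w') = cor h w + cor h' w' := by
  unfold cor
  rw [List.zip_append hl, List.map_append, List.sum_append]

theorem cor_none (k : ℕ) (w : List Bool) : cor (List.replicate k none) w = 0 := by
  induction k generalizing w with
  | zero => simp [cor]
  | succ k ih =>
    cases w with
    | nil => simp [cor]
    | cons b w =>
      have := ih w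
      unfold cor at this ⊢
      rw [List.replicate_succ, List.zip_cons_cons, List.map_cons, List.sum_cons, this]
      simp [pt]

/-- **Unbalanced matrices give advantage for all sets.** -/
theorem predictableAll_of_unbalanced {K t : ℕ} (h : Unbalanced K t) (A : Set (List Bool)) :
    PredictableAll K t A := by
  classical
  obtain ⟨M, a, ha, h⟩ := h
  -- the table
  set row : Fin K → List (Option Bool) := fun j => (List.finRange M).map (fun i => ofZ (a j i))
    with hrow
  set tab : List (List (Option Bool)) := (List.finRange K).map row with htab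
  refine ⟨fun z => tab.getD (dp z).2 [] ++ List.replicate ((dp z).1.length - M) none, M,
    polyTime_bits ?_, fun qs hqs => ?_⟩
  · have hU : UPoly (fun z : List Bool => (dp z).1.length - M) :=
      UPoly.of_le (NPC.Poly.sub (NPC.Poly.length (NPC.Poly.fst dp_poly)) (NPC.Poly.const M))
        (UPoly.length (NPC.Poly.fst dp_poly)) (fun _ => Nat.sub_le _ _)
    refine NPC.Poly.append (NPC.Poly.getD (NPC.Poly.const tab) (NPC.Poly.snd dp_poly)
      (NPC.Poly.const [])) ?_
    have h1 := NPC.Poly.map (l := fun z : List Bool => List.range ((dp z).1.length - M))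
      (F := fun _ _ => (none : Option Bool)) hU.range (NPC.Poly.const none)
    exact h1.congr fun z => by simp
  · set ans := answers A qs with hans
    have hanslen : ans.length = qs.length := by simp [hans, answers]
    obtain ⟨j, hj⟩ := h (fun i => sgn (ans.getD i false)) (fun i => sgn_abs _)
    refine ⟨j, j.2, ?_, ?_⟩
    · simp only [dp_bits]
      rw [List.length_append, List.length_replicate]
      have h1 : tab.getD (j : ℕ) [] = row j := by
        rw [htab, List.getD_eq_getElem _ _ (by simp)]
        simp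
      rw [h1, hrow]
      simp
      omega
    · simp only [dp_bits]
      have h1 : tab.getD (j : ℕ) [] = row j := by
        rw [htab, List.getD_eq_getElem _ _ (by simp)]
        simp
      rw [h1, excess_eq_cor]
      have h2 : ans = ans.take M ++ ans.drop M := (List.take_append_drop _ _).symm
      have hrl : (row j).length = (ans.take M).length := by
        rw [hrow, List.length_take]
        simp
        omega
      rw [← hans, h2, cor_append _ _ _ _ hrl, cor_none, add_zero]
      refine hj.trans (le_of_eq ?_)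
      congr 1
      have h3 : ans.take M = (List.range (row j).length).map (fun i => ans.getD i false) := by
        rw [hrl]
        apply List.ext_getElem
        · simp
        · intro i h4 h5
          rw [List.getElem_take, List.getElem_map, List.getElem_range]
          rw [List.getD_eq_getElem _ _ (by rw [List.length_take] at h4; omega)]
      rw [h3, cor_eq]
      have h4 : (row j).length = M := by rw [hrow]; simp
      rw [h4, Finset.sum_range]
      refine sum_congr rfl fun i _ => ?_
      have h5 : (row j).getD (i : ℕ) none = ofZ (a j i) := by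
        rw [hrow, List.getD_eq_getElem _ _ (by simp)]
        simp
      rw [h5, pt_ofZ (ha j i)]

/-- **The exact law of finite help for `NP`.** -/
theorem exact_law (K t : ℕ) (hK : 1 ≤ K) :
    (Unbalanced K t → ∀ A : Set (List Bool), PredictableAll K t A) ∧
    (¬ Unbalanced K t → List.TFAE
      [∀ L : Set (List Bool), InNP L → InP L,
        ∃ A : Set (List Bool), NPHard A ∧ Predictable K t A,
        ∀ A : Set (List Bool), InNP A → PredictableAll K t A]) := by
  refine ⟨fun h A => predictableAll_of_unbalanced h A, fun hu => ?_⟩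
  tfae_have 1 → 3 := fun h A hA => predictableAll_of_inP hK (h A hA)
  tfae_have 3 → 2 := fun h => by
    obtain ⟨hA1, hA2⟩ := Pool.Agent.NPC.H545KS.sat_complete
    exact ⟨_, hA2, (h _ hA1).predictable⟩
  tfae_have 2 → 1 := fun ⟨A, hA, h⟩ =>
    p_eq_np_of_feasible hA (lstep_inP _) (feasible_of_predictable hu h)
  tfae_finish

end Pool.Agent.TH684.HB
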